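import Pool.Agent.helper5.SYM.SpecB

set_option autoImplicit false

namespace Pool.Agent.SYM

/-- some fibre of a map from an odd set is odd -/
lemma PRT_fib {α β : Type} [Finite α] [Finite β] (f : α → β) (h : Odd (Nat.card α)) :
    ∃ b, Odd (Nat.card {a : α // f a = b}) := by
  classical
  by_contra hcon
  push Not at hcon
  have := Fintype.ofFinite α
  have := Fintype.ofFinite β
  have h1 : Nat.card α = ∑ b : β, Nat.card {a : α // f a = b} := by
    rw [← Nat.card_congr (Equiv.sigmaFiberEquiv f), Nat.card_sigma]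
  rw [h1] at h
  have h2 : Even (∑ b : β, Nat.card {a : α // f a = b}) :=
    Finset.even_sum _ (fun b _ => Nat.not_odd_iff_even.1 (hcon b))
  exact (Nat.not_odd_iff_even.2 h2) h

theorem PRT : PRT_stmt := by
  intro D _ B Y h
  obtain ⟨g, hg⟩ := PRT_fib (fun τ : {τ : D → D // B τ} => fun d : {d : D // ¬ Y d} => τ.1 d.1) h
  have hne : Nat.card {a : {τ : D → D // B τ} //
      (fun d : {d : D // ¬ Y d} => a.1 d.1) = g} ≠ 0 := by
    intro h0
    rw [h0] at hg
    exact (Nat.not_odd_zero hg).elim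
  obtain ⟨⟨⟨τ₀, hτ₀⟩, hτg⟩⟩ := (Nat.card_ne_zero.1 hne).1
  refine ⟨τ₀, hτ₀, ?_⟩
  have e : {τ : D → D // B τ ∧ ∀ d, ¬ Y d → τ d = τ₀ d} ≃ {a : {τ : D → D // B τ} //
      (fun d : {d : D // ¬ Y d} => a.1 d.1) = g} :=
    { toFun := fun τ => ⟨⟨τ.1, τ.2.1⟩, by
        rw [← hτg]
        funext d
        exact τ.2.2 d.1 d.2⟩
      invFun := fun a => ⟨a.1.1, a.1.2, fun d hd => by
        have h1 := a.2.trans hτg.symm
        exact congrFun h1 ⟨d, hd⟩⟩
      left_inv := fun τ => rfl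
      right_inv := fun a => rfl }
  rw [Nat.card_congr e]
  exact hg

end Pool.Agent.SYM
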